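import Pool.Agent.H38.ML.Spec

/-!
Containment check for the staged hand-in HypercentralAsymptotic (v2) of MP_b39724_nt.
-/

set_option autoImplicit false

open H38.ML.Spec

noncomputable section

namespace H8.CT

variable {n : ℕ} (G : Subgroup (Equiv.Perm (Fin n)))

/-- the conclusion: finite and asymptotic -/
def Asy (K : IntermediateField ℚ (AlgebraicClosure ℚ)) (_ : NumberField K) : Prop :=
  (∀ B : ℝ, nK K (AlgebraicClosure ℚ) G B ≠ ⊤) ∧
            ∃ C : ℝ, 0 < C ∧ Filter.Tendsto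
              (fun B : ℝ => ((nK K (AlgebraicClosure ℚ) G B).toNat : ℝ) /
                (B ^ (1 / (indG G : ℝ)) * Real.log B ^ (betaAll K (AlgebraicClosure ℚ) G - 1)))
              Filter.atTop (nhds C)

/-- the lower bound -/
def Low (K : IntermediateField ℚ (AlgebraicClosure ℚ)) (_ : NumberField K) : Prop :=
  ∃ c B₀ : ℝ, 0 < c ∧ ∀ B : ℝ, B₀ ≤ B →
            ((⌈c * B ^ (1 / (indG G : ℝ)) *
              Real.log B ^ (betaAll K (AlgebraicClosure ℚ) G - 1)⌉₊ : ℕ) : ℕ∞) ≤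
                nK K (AlgebraicClosure ℚ) G B

/-- the statement v2 -/
def V2 (T : Subgroup G) : Prop :=
    ((∃ k : ℕ, T ≤ Subgroup.upperCentralSeries G k) →
      ∃ K₀ : IntermediateField ℚ (AlgebraicClosure ℚ), NumberField K₀ ∧
        ∀ K : IntermediateField ℚ (AlgebraicClosure ℚ), ∀ _ : NumberField K, K₀ ≤ K →
          ∃ c B₀ : ℝ, 0 < c ∧ ∀ B : ℝ, B₀ ≤ B →
            ((⌈c * B ^ (1 / (indG G : ℝ)) *
              Real.log B ^ (betaAll K (AlgebraicClosure ℚ) G - 1)⌉₊ : ℕ) : ℕ∞) ≤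
                nK K (AlgebraicClosure ℚ) G B) ∧
    ((∃ k : ℕ, T ⊓ (⊤ : Subgroup G).lowerCentralSeries k = ⊥) →
      ∃ m : ℕ, 0 < m ∧ ∃ K₀ : IntermediateField ℚ (AlgebraicClosure ℚ), NumberField K₀ ∧
        ∀ K : IntermediateField ℚ (AlgebraicClosure ℚ), ∀ _ : NumberField K,
        (∃ z : K, IsPrimitiveRoot z m) → (K₀ ≤ K ∨ IsGaloisGroup K (AlgebraicClosure ℚ) G) →
          (∃ c B₀ : ℝ, 0 < c ∧ ∀ B : ℝ, B₀ ≤ B →
            ((⌈c * B ^ (1 / (indG G : ℝ)) *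
              Real.log B ^ (betaAll K (AlgebraicClosure ℚ) G - 1)⌉₊ : ℕ) : ℕ∞) ≤
                nK K (AlgebraicClosure ℚ) G B) ∧
          (((∃ j : ℕ, Subgroup.upperCentralSeries G j = ⊤ ∨
              Nonempty (G ⧸ Subgroup.upperCentralSeries G j ≃* Equiv.Perm (Fin 3)) ∨
              Nonempty (G ⧸ Subgroup.upperCentralSeries G j ≃* alternatingGroup (Fin 4))) ∨
            ∃ (j : ℕ) (U : Subgroup G), T ≤ U.normalCore ∧
              U.normalCore ≤ Subgroup.upperCentralSeries G j ∧ ∀ g : G, g ∉ T →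
                U.index * (U.index - 1) * indG G < 2 * ind (g : Equiv.Perm (Fin n))) →
            (∀ B : ℝ, nK K (AlgebraicClosure ℚ) G B ≠ ⊤) ∧
            ∃ C : ℝ, 0 < C ∧ Filter.Tendsto
              (fun B : ℝ => ((nK K (AlgebraicClosure ℚ) G B).toNat : ℝ) /
                (B ^ (1 / (indG G : ℝ)) * Real.log B ^ (betaAll K (AlgebraicClosure ℚ) G - 1)))
              Filter.atTop (nhds C)))

/-- v2 gives the landed NilpotentAsymptotic, without its conditions -/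
theorem nil (T : Subgroup G)
    (H : V2 G T) (hnil : Group.IsNilpotent G) :
    ∃ m : ℕ, 0 < m ∧ ∃ K₀ : IntermediateField ℚ (AlgebraicClosure ℚ), NumberField K₀ ∧
      ∀ K : IntermediateField ℚ (AlgebraicClosure ℚ), ∀ _ : NumberField K,
      (∃ z : K, IsPrimitiveRoot z m) →
        (K₀ ≤ K ∨ IsGaloisGroup K (AlgebraicClosure ℚ) G) →
          (∀ B : ℝ, nK K (AlgebraicClosure ℚ) G B ≠ ⊤) ∧
          ∃ C : ℝ, 0 < C ∧ Filter.Tendsto
            (fun B : ℝ => ((nK K (AlgebraicClosure ℚ) G B).toNat : ℝ) /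
              (B ^ (1 / (indG G : ℝ)) * Real.log B ^ (betaAll K (AlgebraicClosure ℚ) G - 1)))
            Filter.atTop (nhds C) := by
  obtain ⟨k, hk⟩ := Subgroup.nilpotent_iff_lowerCentralSeries.1 hnil
  obtain ⟨j, hj⟩ := hnil.nilpotent'
  obtain ⟨m, hm, K₀, hK₀, h⟩ := H.2 ⟨k, by rw [hk, inf_bot_eq]⟩
  exact ⟨m, hm, K₀, hK₀, fun K hK hz hG => (h K hK hz hG).2 (Or.inl ⟨j, Or.inl hj⟩)⟩

/-- a number field which contains a given one and a primitive `m`-th root of unity -/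
theorem big (K₀ : IntermediateField ℚ (AlgebraicClosure ℚ)) (hK₀ : NumberField K₀) (m : ℕ)
    (hm : 0 < m) : ∃ K₁ : IntermediateField ℚ (AlgebraicClosure ℚ), NumberField K₁ ∧ K₀ ≤ K₁ ∧
      ∀ K : IntermediateField ℚ (AlgebraicClosure ℚ), K₁ ≤ K → ∃ z : K, IsPrimitiveRoot z m := by
  have : NeZero m := ⟨hm.ne'⟩
  have : NeZero (m : AlgebraicClosure ℚ) := ⟨by exact_mod_cast hm.ne'⟩
  obtain ⟨z, hz⟩ := HasEnoughRootsOfUnity.exists_primitiveRoot (AlgebraicClosure ℚ) m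
  have : FiniteDimensional ℚ K₀ := hK₀.to_finiteDimensional
  have : FiniteDimensional ℚ (IntermediateField.adjoin ℚ {z}) :=
    IntermediateField.adjoin.finiteDimensional (hz.isIntegral hm).tower_top
  have hf : FiniteDimensional ℚ (K₀ ⊔ IntermediateField.adjoin ℚ {z} :
    IntermediateField ℚ (AlgebraicClosure ℚ)) := inferInstance
  refine ⟨K₀ ⊔ IntermediateField.adjoin ℚ {z}, { to_finiteDimensional := hf }, le_sup_left,
    fun K hK => ?_⟩
  have hzK : z ∈ K := hK (le_sup_right (a := K₀) (IntermediateField.mem_adjoin_simple_self ℚ z))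
  refine ⟨⟨z, hzK⟩, ?_⟩
  exact IsPrimitiveRoot.of_map_of_injective (f := K.val) (by simpa using hz) K.val.injective

/-- v2 gives the landed CentralCommutatorAsymptotic for nilpotent groups, without the condition on
commutators, and for `G / Z_k = A_4` if `T` meets a lower central term trivially -/
theorem cc (T : Subgroup G)
    (H : V2 G T)
    (hnil : Group.IsNilpotent G ∨ ((∃ k : ℕ,
      Nonempty (G ⧸ Subgroup.upperCentralSeries G k ≃* alternatingGroup (Fin 4))) ∧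
        ∃ k : ℕ, T ⊓ (⊤ : Subgroup G).lowerCentralSeries k = ⊥)) :
    ∃ K₀ : IntermediateField ℚ (AlgebraicClosure ℚ), NumberField K₀ ∧
      ∀ K : IntermediateField ℚ (AlgebraicClosure ℚ), K₀ ≤ K → ∀ _ : NumberField K,
        (∀ B : ℝ, nK K (AlgebraicClosure ℚ) G B ≠ ⊤) ∧
        ∃ C : ℝ, 0 < C ∧ Filter.Tendsto
          (fun B : ℝ => ((nK K (AlgebraicClosure ℚ) G B).toNat : ℝ) /
            (B ^ (1 / (indG G : ℝ)) * Real.log B ^ (betaAll K (AlgebraicClosure ℚ) G - 1)))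
          Filter.atTop (nhds C) := by
  have h1 : ∃ k : ℕ, T ⊓ (⊤ : Subgroup G).lowerCentralSeries k = ⊥ := by
    rcases hnil with hnil | ⟨-, h⟩
    · obtain ⟨k, hk⟩ := Subgroup.nilpotent_iff_lowerCentralSeries.1 hnil
      exact ⟨k, by rw [hk, inf_bot_eq]⟩
    · exact h
  have h2 : ∃ j : ℕ, Subgroup.upperCentralSeries G j = ⊤ ∨
              Nonempty (G ⧸ Subgroup.upperCentralSeries G j ≃* Equiv.Perm (Fin 3)) ∨
              Nonempty (G ⧸ Subgroup.upperCentralSeries G j ≃* alternatingGroup (Fin 4)) := by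
    rcases hnil with hnil | ⟨⟨k, h⟩, -⟩
    · obtain ⟨j, hj⟩ := hnil.nilpotent'
      exact ⟨j, Or.inl hj⟩
    · exact ⟨k, Or.inr (Or.inr h)⟩
  obtain ⟨m, hm, K₀, hK₀, h⟩ := H.2 h1
  obtain ⟨K₁, hK₁, hle, hz⟩ := big K₀ hK₀ m hm
  exact ⟨K₁, hK₁, fun K hK hK' => (h K hK' (hz K hK) (Or.inl (hle.trans hK))).2 (Or.inl h2)⟩

/-- v2 gives the staged HypercentralLowerBound (v1), without its conditions -/
theorem lowb (T : Subgroup G) (H : V2 G T)
    (hk : ∃ k : ℕ, T ⊓ (⊤ : Subgroup G).lowerCentralSeries k = ⊥) :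
    ∃ m : ℕ, 0 < m ∧ ∃ K₀ : IntermediateField ℚ (AlgebraicClosure ℚ), NumberField K₀ ∧
      ∀ K : IntermediateField ℚ (AlgebraicClosure ℚ), ∀ _ : NumberField K,
      (∃ z : K, IsPrimitiveRoot z m) →
        (K₀ ≤ K ∨ IsGaloisGroup K (AlgebraicClosure ℚ) G) →
          ∃ c B₀ : ℝ, 0 < c ∧ ∀ B : ℝ, B₀ ≤ B →
            ((⌈c * B ^ (1 / (indG G : ℝ)) *
              Real.log B ^ (betaAll K (AlgebraicClosure ℚ) G - 1)⌉₊ : ℕ) : ℕ∞) ≤
                nK K (AlgebraicClosure ℚ) G B := by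
  obtain ⟨m, hm, K₀, hK₀, h⟩ := H.2 hk
  exact ⟨m, hm, K₀, hK₀, fun K hK hz hG' => (h K hK hz hG').1⟩

/-- v2 gives the asymptotic part of the staged HypercentralAsymptotic (v1), without its conditions -/
theorem asyv (T : Subgroup G) (H : V2 G T)
    (hk : ∃ k : ℕ, T ⊓ (⊤ : Subgroup G).lowerCentralSeries k = ⊥)
    (hQ : (∃ j : ℕ, Subgroup.upperCentralSeries G j = ⊤ ∨
        Nonempty (G ⧸ Subgroup.upperCentralSeries G j ≃* Equiv.Perm (Fin 3)) ∨
        Nonempty (G ⧸ Subgroup.upperCentralSeries G j ≃* alternatingGroup (Fin 4))) ∨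
      ∃ (j : ℕ) (U : Subgroup G), T ≤ U.normalCore ∧
        U.normalCore ≤ Subgroup.upperCentralSeries G j ∧ ∀ g : G, g ∉ T →
          U.index * (U.index - 1) * indG G < 2 * ind (g : Equiv.Perm (Fin n))) :
    ∃ m : ℕ, 0 < m ∧ ∃ K₀ : IntermediateField ℚ (AlgebraicClosure ℚ), NumberField K₀ ∧
      ∀ K : IntermediateField ℚ (AlgebraicClosure ℚ), ∀ _ : NumberField K,
      (∃ z : K, IsPrimitiveRoot z m) →
          (K₀ ≤ K ∨ IsGaloisGroup K (AlgebraicClosure ℚ) G) →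
          (∀ B : ℝ, nK K (AlgebraicClosure ℚ) G B ≠ ⊤) ∧
            ∃ C : ℝ, 0 < C ∧ Filter.Tendsto
              (fun B : ℝ => ((nK K (AlgebraicClosure ℚ) G B).toNat : ℝ) /
                (B ^ (1 / (indG G : ℝ)) * Real.log B ^ (betaAll K (AlgebraicClosure ℚ) G - 1)))
              Filter.atTop (nhds C) := by
  obtain ⟨m, hm, K₀, hK₀, h⟩ := H.2 hk
  exact ⟨m, hm, K₀, hK₀, fun K hK hz hG' => (h K hK hz hG').2 hQ⟩

end H8.CT

end
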